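import Mathlib
import Pool.Agent.H472R3.Defs
import Pool.Agent.H472R3.Limit

set_option autoImplicit false

/-!
# No finite set of translation lengths need determine a point of closed Outer space

For every `N ≥ 3` there is a point `A` of the closure of the unprojectivized Outer space `cv_N`
(a free minimal action of the free group of rank `N` on an R-tree) such that NO finite subset `S`
of the free group pins down `A`: for every finite `S` some other point of the closure (indeed of
`cv_N` itself) has the same translation lengths on `S`.  In particular this holds for all finite
sets `S` of primitive elements.

The tree is the strong limit of the free simplicial trees obtained from a rose by the train track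
automorphism `a ↦ c a⁻¹, b ↦ a, c ↦ b` (the other generators are fixed), which has no Nielsen
paths: every element of the free group becomes legal after finitely many iterations.
-/

namespace Pool.Agent.Results.MP_93ccfe_al.NotPinnedDown

open Pool.Agent.H472R3

/-- For every `N ≥ 3` there is a free action `A` in the closure of `cv_N` which is not pinned down
by any finite subset of the free group of rank `N`. -/
theorem result : ∀ N : ℕ, 3 ≤ N → ∃ A : FTree N, A.InClosure ∧ A.Free ∧
    ∀ S : Set (FreeGroup (Fin N)), S.Finite → ¬ FTree.PinsDown S A := by
  intro N hN
  obtain ⟨M, rfl⟩ : ∃ M, N = M + 3 := ⟨N - 3, by omega⟩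
  refine ⟨treeInf M, treeInf_inClosure, treeInf_free, ?_⟩
  intro S hS hpin
  obtain ⟨n, hn⟩ := len_level (M := M) hS.toFinset
  have hsame := hpin (treeN M n) (InCV.inClosure (by omega) (treeN_inCV n))
    (fun g hg => hn n le_rfl g (by simpa using hg))
  exact len_ne n hsame.len_eq

end Pool.Agent.Results.MP_93ccfe_al.NotPinnedDown
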